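import Pool.Agent.Q79.HU.TWS
import Pool.Agent.Q208.HT.BB
import Pool.Agent.W719.BS.LLp

/-!
# Highly twisted links on planar shadows (helper99), job BBn: the bounds near the centre
-/

set_option autoImplicit false

namespace Pool.Agent.Q79.HU

open Finset
open Pool.Agent.W719.BS (D LL LL_cont)
open Pool.Agent.Q99.FAL (bq hh dn n1 n2)
open Pool.Agent.Q99.KN
open Pool.Agent.Q99.HT
open Pool.Agent.Q99.HU
open Pool.Agent.Q208.HT

theorem n1_cont : Continuous (fun x : Fin 6 → ℝ => n1 x) := by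
  unfold n1
  fun_prop

theorem n2_cont : Continuous (fun x : Fin 6 → ℝ => n2 x) := by
  unfold n2
  fun_prop

theorem pt_cont : Continuous pt := by
  have e : pt = _ := funext pt_six
  rw [e]
  have t : ∀ (i : Fin 6) {f : (Fin 6 → ℝ) → ℝ}, Continuous f →
      Continuous (fun x : Fin 6 → ℝ => LL (f x) - LL (f x - x i) - LL (x i)) := fun i f hf =>
    ((LL_cont.comp hf).sub (LL_cont.comp (hf.sub (continuous_apply i)))).sub
      (LL_cont.comp (continuous_apply i))
  exact (((((t 0 n2_cont).add (t 1 n1_cont)).add (t 2 n1_cont)).add (t 3 n1_cont)).add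
    (t 4 n2_cont)).add (t 5 n2_cont)

/-- far from `n1 = 1/2` the exponent is smaller -/
theorem gap {α : Fin 6 → ℝ} (hF : Fr α) (hP : NdP α) {ε : ℝ} (hε : 0 < ε) :
    ∃ μ : ℝ, 0 < μ ∧ ∀ x : Fin 6 → ℝ, (∀ i, 0 ≤ x i) → n1 x + n2 x = 1 → ε ≤ |n1 x - 1 / 2| →
      |x 0 - α 0| + |x 1 + x 4 - (α 1 + α 4)| + |x 3 - α 3| < μ → pt x ≤ v0 α - μ := by
  obtain ⟨T, hT⟩ : ∃ T : Set (Fin 6 → ℝ), T = Set.Ici 0 ∩ ({x | n1 x + n2 x = 1} ∩
    {x | ε ≤ |n1 x - 1 / 2|}) := ⟨_, rfl⟩
  have hcl : IsClosed T := by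
    rw [hT]
    exact isClosed_Ici.inter ((isClosed_eq (n1_cont.add n2_cont) continuous_const).inter
      (isClosed_le continuous_const (n1_cont.sub continuous_const).abs))
  have hsub : T ⊆ Set.Icc 0 1 := by
    rw [hT]
    rintro x ⟨h1, h2, _⟩
    refine ⟨h1, ?_⟩
    have h3 : ∀ i, 0 ≤ x i := fun i => h1 i
    have h4 : n1 x + n2 x = 1 := h2
    unfold n1 n2 at h4
    have g0 := h3 0
    have g1 := h3 1
    have g2 := h3 2
    have g3 := h3 3
    have g4 := h3 4
    have g5 := h3 5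
    intro i
    show x i ≤ 1
    fin_cases i
    · show x 0 ≤ 1
      linarith
    · show x 1 ≤ 1
      linarith
    · show x 2 ≤ 1
      linarith
    · show x 3 ≤ 1
      linarith
    · show x 4 ≤ 1
      linarith
    · show x 5 ≤ 1
      linarith
  have hcomp : IsCompact T := isCompact_Icc.of_isClosed_subset hcl hsub
  rcases T.eq_empty_or_nonempty with h0 | h0
  · refine ⟨1, one_pos, fun x h1 h2 h3 _ => ?_⟩
    exfalso
    have : x ∈ T := by
      rw [hT]
      exact ⟨fun i => h1 i, h2, h3⟩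
    rw [h0] at this
    exact this
  · obtain ⟨F, hFd⟩ : ∃ F : (Fin 6 → ℝ) → ℝ, F = fun x =>
      max (|x 0 - α 0| + |x 1 + x 4 - (α 1 + α 4)| + |x 3 - α 3|) (v0 α - pt x) := ⟨_, rfl⟩
    have hFc : Continuous F := by
      rw [hFd]
      refine Continuous.max ?_ (continuous_const.sub pt_cont)
      fun_prop
    obtain ⟨x0, hx0, hmin⟩ := hcomp.exists_isMinOn h0 hFc.continuousOn
    refine ⟨F x0, ?_, fun x h1 h2 h3 h4 => ?_⟩
    · rw [hT] at hx0
      obtain ⟨m1, m2, m3⟩ := hx0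
      have m2' : n1 x0 + n2 x0 = 1 := m2
      have m3' : ε ≤ |n1 x0 - 1 / 2| := m3
      rw [hFd]
      show 0 < max _ _
      rw [lt_max_iff]
      by_contra hc
      push Not at hc
      obtain ⟨c1, c2⟩ := hc
      have b0 := abs_nonneg (x0 0 - α 0)
      have b1 := abs_nonneg (x0 1 + x0 4 - (α 1 + α 4))
      have b3 := abs_nonneg (x0 3 - α 3)
      have e0 : x0 0 = α 0 := by
        have := abs_eq_zero.1 (le_antisymm (by linarith) b0)
        linarith
      have e1 : x0 1 + x0 4 = α 1 + α 4 := by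
        have := abs_eq_zero.1 (le_antisymm (by linarith) b1)
        linarith
      have e3 : x0 3 = α 3 := by
        have := abs_eq_zero.1 (le_antisymm (by linarith) b3)
        linarith
      have hne : x0 ≠ α := by
        rintro rfl
        have : n1 x0 = 1 / 2 := hF.s1
        rw [this, sub_self, abs_zero] at m3'
        linarith
      have := hP x0 (fun i => m1 i) m2' e0 e1 e3 hne
      linarith
    · have hx : x ∈ T := by
        rw [hT]
        exact ⟨fun i => h1 i, h2, h3⟩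
      have h5 : F x0 ≤ F x := hmin hx
      have h6 : F x = max (|x 0 - α 0| + |x 1 + x 4 - (α 1 + α 4)| + |x 3 - α 3|)
        (v0 α - pt x) := by rw [hFd]
      rw [h6] at h5
      rcases le_max_iff.1 h5 with h7 | h7
      · linarith
      · linarith

theorem cen {N : ℕ} {a c ρ : ℝ} (hN : (0 : ℝ) < N) (h : |a / N - c| ≤ ρ) :
    |a - N * c| ≤ N * ρ := by
  have e : a - N * c = N * (a / N - c) := by field_simp
  rw [e, abs_mul, abs_of_pos hN]
  exact mul_le_mul_of_nonneg_left h hN.le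

theorem cen2 {N : ℕ} {a c ρ ρ' x : ℝ} (hN : (0 : ℝ) < N) (h : |a / N - c| ≤ ρ)
    (hx : ((N : ℝ) - 1) * x = a) (hx0 : 0 ≤ x) (hx1 : x ≤ 1) (hNρ : 1 ≤ N * ρ') :
    |x - c| ≤ ρ + ρ' := by
  have e : x - c = (a / N - c) + x / N := by
    rw [← hx]
    field_simp
    ring
  rw [e]
  refine (abs_add_le _ _).trans (add_le_add h ?_)
  rw [abs_of_nonneg (by positivity), div_le_iff₀ hN]
  linarith

theorem far2 {N : ℕ} {a ε y : ℝ} (hN : (0 : ℝ) < N) (h : ε < |a / N - 1 / 2|)
    (hx : ((N : ℝ) - 1) * y = a) (hx0 : 0 ≤ y) (hx1 : y ≤ 1) (hNρ : 1 ≤ N * (ε / 2)) :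
    ε / 2 ≤ |y - 1 / 2| := by
  have e : a / N - 1 / 2 = (y - 1 / 2) + -(y / N) := by
    rw [← hx]
    field_simp
    ring
  rw [e] at h
  have h1 := abs_add_le (y - 1 / 2) (-(y / N))
  have h2 : |(-(y / N))| ≤ ε / 2 := by
    rw [abs_neg, abs_of_nonneg (by positivity), div_le_iff₀ hN]
    linarith
  linarith

theorem small (N1 : ℕ) (f g : ℕ → ℕ → ℕ → ℕ → ℕ → ℝ)
    (hg : ∀ N A b C k, 0 < N → 0 < g N A b C k) :
    ∃ K : ℝ, 0 ≤ K ∧ ∀ N A b C k, 0 < N → N < N1 → A < N → b < N → C < N → k < N →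
      f N A b C k ≤ K * g N A b C k := by
  obtain ⟨M, hM⟩ := (((range N1) ×ˢ (range N1) ×ˢ (range N1) ×ˢ (range N1) ×ˢ (range N1)).image
    (fun t => f t.1 t.2.1 t.2.2.1 t.2.2.2.1 t.2.2.2.2 /
      g t.1 t.2.1 t.2.2.1 t.2.2.2.1 t.2.2.2.2)).exists_le
  refine ⟨max M 0, le_max_right _ _, fun N A b C k h0 h1 hA hb hC hk => ?_⟩
  have h := hM _ (mem_image.2 ⟨(N, A, b, C, k), by
    simp only [mem_product, mem_range]; omega, rfl⟩)
  have hg' := hg N A b C k h0
  have h' : f N A b C k / g N A b C k ≤ max M 0 := le_max_of_le_left h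
  rwa [div_le_iff₀ hg'] at h'

theorem pow_exp {μ : ℝ} (hμ : 0 < μ) (p N : ℕ) :
    (N : ℝ) ^ p ≤ (p.factorial : ℝ) * (2 / μ) ^ p * Real.exp (N * (μ / 2)) := by
  have h1 := Real.pow_div_factorial_le_exp ((N : ℝ) * (μ / 2)) (by positivity) p
  have hf : (0 : ℝ) < p.factorial := by exact_mod_cast p.factorial_pos
  rw [div_le_iff₀ hf] at h1
  have h2 : (N : ℝ) ^ p = (2 / μ) ^ p * ((N : ℝ) * (μ / 2)) ^ p := by
    rw [← mul_pow]
    congr 1
    field_simp
  calc (N : ℝ) ^ p = (2 / μ) ^ p * ((N : ℝ) * (μ / 2)) ^ p := h2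
    _ ≤ (2 / μ) ^ p * (Real.exp (N * (μ / 2)) * p.factorial) :=
        mul_le_mul_of_nonneg_left h1 (by positivity)
    _ = _ := by ring

theorem task_BBn : S_BBn := by
  intro hEV hPF hWR hSB hTW α hF h12 h45 hP
  obtain ⟨C1, κ1, hκ1, h1⟩ := hTW α hF h12 h45
  obtain ⟨C2, p, h2⟩ := hSB
  have s1 := hF.s1
  have s2 := hF.s2
  have a0 : α 0 < 1 / 2 := by linarith [hF.nn 1, hF.p2]
  have a3 : α 3 < 1 / 2 := by linarith [hF.nn 4, hF.p5]
  obtain ⟨ε, hε0, hε1, hε2⟩ : ∃ ε : ℝ, 0 < ε ∧ 3 * ε ≤ 1 / 2 - α 0 ∧ 3 * ε ≤ 1 / 2 - α 3 := by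
    refine ⟨min (1 / 2 - α 0) (1 / 2 - α 3) / 3, ?_, ?_, ?_⟩
    · exact div_pos (lt_min (by linarith) (by linarith)) (by norm_num)
    · have := min_le_left (1 / 2 - α 0) (1 / 2 - α 3)
      linarith
    · have := min_le_right (1 / 2 - α 0) (1 / 2 - α 3)
      linarith
  obtain ⟨μ, hμ, hgap⟩ := gap hF hP (half_pos hε0)
  obtain ⟨L, hL⟩ : ∃ L : ℝ, L = |ml α 0| + |ml α 1| + |ml α 2| := ⟨_, rfl⟩
  have hL0 : 0 ≤ L := by rw [hL]; positivity
  obtain ⟨ρ, hρ0, hρ1, hρ2, hρ3, hρ4⟩ : ∃ ρ : ℝ, 0 < ρ ∧ ρ ≤ ε ∧ 7 * ρ ≤ μ ∧ L * ρ ≤ μ / 4 ∧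
      ρ ≤ 1 := by
    refine ⟨min (min ε 1) (min (μ / 7) (μ / (4 * (L + 1)))), ?_, ?_, ?_, ?_, ?_⟩
    · exact lt_min (lt_min hε0 one_pos) (lt_min (by positivity) (by positivity))
    · exact (min_le_left _ _).trans (min_le_left _ _)
    · have : min (min ε 1) (min (μ / 7) (μ / (4 * (L + 1)))) ≤ μ / 7 :=
        (min_le_right _ _).trans (min_le_left _ _)
      linarith
    · have h3 : min (min ε 1) (min (μ / 7) (μ / (4 * (L + 1)))) ≤ μ / (4 * (L + 1)) :=
        (min_le_right _ _).trans (min_le_right _ _)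
      have h4 := mul_le_mul_of_nonneg_left h3 hL0
      have h5 : L * (μ / (4 * (L + 1))) ≤ μ / 4 := by
        rw [mul_div_assoc', div_le_div_iff₀ (by positivity) (by norm_num)]
        nlinarith
      linarith
    · exact (min_le_left _ _).trans (min_le_right _ _)
  obtain ⟨κ, hκ0, hκ2, hκ3⟩ : ∃ κ : ℝ, 0 < κ ∧ κ ≤ κ1 ∧ 16 * κ ≤ μ := by
    refine ⟨min κ1 (μ / 16), lt_min hκ1 (by positivity), min_le_left _ _, ?_⟩
    have := min_le_right κ1 (μ / 16)
    linarith
  obtain ⟨N1, hN1⟩ := exists_nat_gt (max (1 / ρ) (2 / ε) + 2)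
  have hbig : ∀ N : ℕ, N1 ≤ N → 2 ≤ N ∧ 1 ≤ N * ρ ∧ 1 ≤ N * (ε / 2) := by
    intro N hN
    have g1 : (N1 : ℝ) ≤ N := by exact_mod_cast hN
    have g2 : 1 / ρ ≤ N := by
      have := le_max_left (1 / ρ) (2 / ε)
      linarith
    have g3 : 2 / ε ≤ N := by
      have := le_max_right (1 / ρ) (2 / ε)
      linarith
    refine ⟨?_, ?_, ?_⟩
    · have h3 : 0 < max (1 / ρ) (2 / ε) := lt_max_of_lt_left (by positivity)
      have : (2 : ℝ) ≤ N := by linarith
      exact_mod_cast this
    · rwa [div_le_iff₀ hρ0] at g2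
    · rw [div_le_iff₀ hε0] at g3
      linarith
  obtain ⟨K2, hK20, hK2⟩ := small N1
    (fun N A b C k => ‖Wk N (zl N k) A b C‖ + ‖deriv (fun z => Wk N z A b C) (zl N k)‖)
    (fun N A b C k => (N : ℝ) ^ 3 * Real.exp (eX N α A b C - κ * dX N α A b C k / N))
    (fun N A b C k hN => by
      have : (0 : ℝ) < N := by exact_mod_cast hN
      positivity)
  obtain ⟨K1, hK1⟩ : ∃ K1 : ℝ, K1 = |C2| * ((p.factorial : ℝ) * (2 / μ) ^ p) := ⟨_, rfl⟩
  have hK10 : 0 ≤ K1 := by rw [hK1]; positivity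
  refine ⟨κ, |C1| + K1 + K2, ρ, hκ0, hρ0, ⟨?_, ?_, ?_⟩⟩
  · -- `tw`
    intro N A b C j k hs hC hj hk g1 g2 g3 g4
    refine (h1 N A b C j k hs hC hj hk g1 g2 g3 g4).trans ?_
    have h3 := ex_le (C' := C1) (E := eX N α A b C) (N := N) (κ := κ) (κi := κ1)
      (d := dX N α A b C k + ((j : ℝ) - N * α 1) ^ 2) (s := 0) (by omega) hκ0.le hκ2
      (add_nonneg (dX_nonneg N α A b C k) (sq_nonneg _)) le_rfl
    rw [add_zero] at h3
    obtain ⟨X, hX⟩ : ∃ X, X = Real.exp (eX N α A b C - κ * (dX N α A b C k +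
      ((j : ℝ) - N * α 1) ^ 2) / N) := ⟨_, rfl⟩
    have hX0 : 0 < X := by rw [hX]; exact Real.exp_pos _
    rw [← hX] at h3 ⊢
    calc C1 * N ^ 2 * Real.exp (eX N α A b C - κ1 * (dX N α A b C k + ((j : ℝ) - N * α 1) ^ 2) / N)
        = N ^ 2 * (C1 * Real.exp (eX N α A b C - κ1 * (dX N α A b C k +
          ((j : ℝ) - N * α 1) ^ 2) / N)) := by ring
      _ ≤ N ^ 2 * (|C1| * X) := mul_le_mul_of_nonneg_left h3 (by positivity)
      _ ≤ N ^ 2 * ((|C1| + K1 + K2) * X) := by
          apply mul_le_mul_of_nonneg_left _ (by positivity)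
          exact mul_le_mul_of_nonneg_right (by linarith) hX0.le
      _ = _ := by ring
  · -- `bb`
    intro N A b C k hs hC rA rb rC hk
    have hN : 0 < N := by omega
    have hN0 : (0 : ℝ) < N := by exact_mod_cast hN
    have hN1' : (1 : ℝ) ≤ N := by exact_mod_cast hN
    obtain ⟨X, hX⟩ : ∃ X, X = Real.exp (eX N α A b C - κ * dX N α A b C k / N) := ⟨_, rfl⟩
    have hX0 : 0 < X := by rw [hX]; exact Real.exp_pos _
    rw [← hX]
    have fin : ∀ {Q c : ℝ}, c ≤ |C1| + K1 + K2 → Q ≤ c * (N ^ 3 * X) →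
        Q ≤ (|C1| + K1 + K2) * N ^ 3 * X := by
      intro Q c hc hQ
      calc Q ≤ c * (N ^ 3 * X) := hQ
        _ ≤ (|C1| + K1 + K2) * (N ^ 3 * X) := mul_le_mul_of_nonneg_right hc (by positivity)
        _ = _ := by ring
    rcases lt_or_ge N N1 with hsm | hbg
    · -- small `N`
      refine fin (c := K2) (by linarith [abs_nonneg C1]) ?_
      rw [hX]
      exact hK2 N A b C k hN hsm (by omega) (by omega) (by omega) hk
    obtain ⟨b1, b2, b3⟩ := hbig N hbg
    rcases le_or_gt |(k : ℝ) / N - 1 / 2| ε with hk1 | hk1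
    · -- near `1/2`
      obtain ⟨k1, k2⟩ := abs_le.1 hk1
      obtain ⟨_, A2⟩ := abs_le.1 rA
      obtain ⟨_, c2⟩ := abs_le.1 rC
      have kN : (k : ℝ) = N * ((k : ℝ) / N) := by field_simp
      have AN : (A : ℝ) = N * ((A : ℝ) / N) := by field_simp
      have CN : (C : ℝ) = N * ((C : ℝ) / N) := by field_simp
      have q1 : A ≤ k := by
        have : (A : ℝ) ≤ k := by
          rw [kN, AN]
          exact mul_le_mul_of_nonneg_left (by linarith) hN0.le
        exact_mod_cast this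
      have q2 : A + k < N := by
        have : (A : ℝ) + k < N := by
          calc (A : ℝ) + k = N * ((A : ℝ) / N + (k : ℝ) / N) := by rw [mul_add, ← kN, ← AN]
            _ < N * 1 := mul_lt_mul_of_pos_left (by linarith) hN0
            _ = N := mul_one _
        exact_mod_cast this
      have q3 : C ≤ k := by
        have : (C : ℝ) ≤ k := by
          rw [kN, CN]
          exact mul_le_mul_of_nonneg_left (by linarith) hN0.le
        exact_mod_cast this
      have q4 : C + k < N := by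
        have : (C : ℝ) + k < N := by
          calc (C : ℝ) + k = N * ((C : ℝ) / N + (k : ℝ) / N) := by rw [mul_add, ← kN, ← CN]
            _ < N * 1 := mul_lt_mul_of_pos_left (by linarith) hN0
            _ = N := mul_one _
        exact_mod_cast this
      refine fin (c := |C1|) (by linarith) ?_
      have h3 : ‖Wk N (zl N k) A b C‖ + ‖deriv (fun z => Wk N z A b C) (zl N k)‖ ≤
          N * (|C1| * N ^ 2 * X) := by
        apply W_bound hs _ (by positivity)
        intro j hj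
        refine (h1 N A b C j k hs hC hj hk q1 q2 q3 q4).trans ?_
        have h4 := ex_le (C' := C1) (E := eX N α A b C) (N := N) hN hκ0.le hκ2
          (dX_nonneg N α A b C k) (sq_nonneg ((j : ℝ) - N * α 1))
        rw [← hX] at h4
        calc C1 * N ^ 2 * Real.exp (eX N α A b C - κ1 * (dX N α A b C k +
              ((j : ℝ) - N * α 1) ^ 2) / N)
            = N ^ 2 * (C1 * Real.exp (eX N α A b C - κ1 * (dX N α A b C k +
              ((j : ℝ) - N * α 1) ^ 2) / N)) := by ring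
          _ ≤ N ^ 2 * (|C1| * X) := mul_le_mul_of_nonneg_left h4 (by positivity)
          _ = _ := by ring
      calc _ ≤ N * (|C1| * N ^ 2 * X) := h3
        _ = _ := by ring
    · -- far from `1/2`
      refine fin (c := K1) (by linarith [abs_nonneg C1]) ?_
      rcases h2 N A b C k b1 hs hk with h3 | ⟨x, hx, hxk, hxV⟩
      · rw [h3]
        positivity
      have hsum := hx.su
      have g0 := hx.nn 0
      have g1 := hx.nn 1
      have g2 := hx.nn 2
      have g3 := hx.nn 3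
      have g4 := hx.nn 4
      have g5 := hx.nn 5
      have hn1 : n1 x = x 0 + x 1 + x 2 := rfl
      have hn2 : n2 x = x 3 + x 4 + x 5 := rfl
      have d0 := cen2 hN0 rA hx.c0 g0 (by linarith) b2
      have d1 := cen2 hN0 rb hx.c1 (by linarith) (by linarith) b2
      have d3 := cen2 hN0 rC hx.c2 g3 (by linarith) b2
      have d4 : ε / 2 ≤ |n1 x - 1 / 2| := by
        rcases hxk with h4 | h4
        · exact far2 hN0 hk1 h4 (by linarith) (by linarith) b3
        · have h5 := far2 (y := 1 - n1 x) hN0 hk1 (by linear_combination -h4) (by linarith)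
            (by linarith) b3
          rwa [show 1 - n1 x - 1 / 2 = -(n1 x - 1 / 2) by ring, abs_neg] at h5
      have hpt := hgap x hx.nn hsum d4 (by linarith)
      -- the exponent
      have e0 := cen hN0 rA
      have e1 := cen hN0 rb
      have e2 := cen hN0 rC
      have eXl : N * v0 α - N * (μ / 4) ≤ eX N α A b C := by
        have l0 : -(|ml α 0| * (N * ρ)) ≤ ml α 0 * (A - N * α 0) := by
          have := neg_abs_le (ml α 0 * (A - N * α 0))
          rw [abs_mul] at this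
          have := mul_le_mul_of_nonneg_left e0 (abs_nonneg (ml α 0))
          linarith
        have l1 : -(|ml α 1| * (N * ρ)) ≤ ml α 1 * (b - N * (α 1 + α 4)) := by
          have := neg_abs_le (ml α 1 * (b - N * (α 1 + α 4)))
          rw [abs_mul] at this
          have := mul_le_mul_of_nonneg_left e1 (abs_nonneg (ml α 1))
          linarith
        have l2 : -(|ml α 2| * (N * ρ)) ≤ ml α 2 * (C - N * α 3) := by
          have := neg_abs_le (ml α 2 * (C - N * α 3))
          rw [abs_mul] at this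
          have := mul_le_mul_of_nonneg_left e2 (abs_nonneg (ml α 2))
          linarith
        have l3 : |ml α 0| * (N * ρ) + |ml α 1| * (N * ρ) + |ml α 2| * (N * ρ) ≤
            N * (μ / 4) := by
          calc _ = N * (L * ρ) := by rw [hL]; ring
            _ ≤ _ := mul_le_mul_of_nonneg_left hρ3 hN0.le
        unfold eX
        linarith
      have hNρ : N * ρ ≤ N := mul_le_of_le_one_right hN0.le hρ4
      have sqb : ∀ {u : ℝ}, |u| ≤ N * ρ → u ^ 2 ≤ (N : ℝ) ^ 2 := by
        intro u hu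
        rw [← sq_abs]
        exact pow_le_pow_left₀ (abs_nonneg _) (hu.trans hNρ) 2
      have dXu : dX N α A b C k ≤ 4 * (N : ℝ) ^ 2 := by
        have f0 := sqb e0
        have f1 := sqb e1
        have f2 := sqb e2
        have f3 : ((k : ℝ) - N / 2) ^ 2 ≤ (N : ℝ) ^ 2 := by
          have : (k : ℝ) ≤ N := by exact_mod_cast hk.le
          have k0 : (0 : ℝ) ≤ k := Nat.cast_nonneg k
          apply sq_le_sq'
          · linarith
          · linarith
        unfold dX
        linarith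
      have hXl : N * v0 α - N * (μ / 2) ≤ eX N α A b C - κ * dX N α A b C k / N := by
        have f1 : κ * dX N α A b C k / N ≤ N * (μ / 4) := by
          rw [div_le_iff₀ hN0]
          calc κ * dX N α A b C k ≤ κ * (4 * (N : ℝ) ^ 2) := mul_le_mul_of_nonneg_left dXu hκ0.le
            _ = (4 * κ) * (N : ℝ) ^ 2 := by ring
            _ ≤ (μ / 4) * (N : ℝ) ^ 2 := mul_le_mul_of_nonneg_right (by linarith) (by positivity)
            _ = _ := by ring
        linarith
      have hX1 : Real.exp (N * v0 α - N * (μ / 2)) ≤ X := by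
        rw [hX]
        exact Real.exp_le_exp.2 hXl
      have hN3 : (1 : ℝ) ≤ N ^ 3 := one_le_pow₀ hN1'
      calc ‖Wk N (zl N k) A b C‖ + ‖deriv (fun z => Wk N z A b C) (zl N k)‖
          ≤ C2 * N ^ p * Real.exp (N * pt x) := hxV
        _ ≤ |C2| * N ^ p * Real.exp (N * (v0 α - μ)) := by
            apply mul_le_mul
            · exact mul_le_mul_of_nonneg_right (le_abs_self _) (by positivity)
            · exact Real.exp_le_exp.2 (mul_le_mul_of_nonneg_left hpt hN0.le)
            · exact (Real.exp_pos _).le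
            · positivity
        _ ≤ |C2| * ((p.factorial : ℝ) * (2 / μ) ^ p * Real.exp (N * (μ / 2))) *
              Real.exp (N * (v0 α - μ)) := by
            apply mul_le_mul_of_nonneg_right _ (Real.exp_pos _).le
            exact mul_le_mul_of_nonneg_left (pow_exp hμ p N) (abs_nonneg _)
        _ = K1 * Real.exp (N * v0 α - N * (μ / 2)) := by
            rw [hK1, show N * v0 α - N * (μ / 2) = N * (μ / 2) + N * (v0 α - μ) by ring,
              Real.exp_add]
            ring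
        _ ≤ K1 * (N ^ 3 * X) := by
            apply mul_le_mul_of_nonneg_left _ hK10
            calc Real.exp (N * v0 α - N * (μ / 2)) ≤ X := hX1
              _ ≤ N ^ 3 * X := le_mul_of_one_le_left hX0.le hN3
  · intro N A b C hs z
    exact (hEV hPF hWR N (by omega) z A b C hs).1

end Pool.Agent.Q79.HU
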