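import Pool.Agent.Q99.HU.Stm1
import Pool.Agent.Q208.HT.TW

/-!
# Highly twisted links on planar shadows (helper99), job TWS: a term at a lattice point
-/

set_option autoImplicit false

namespace Pool.Agent.Q79.HU

open Finset
open Pool.Agent.W719.BS (D LL D_pos D_refl)
open Pool.Agent.Q99.FAL (bq hh dn n1 n2)
open Pool.Agent.Q99.KN
open Pool.Agent.Q99.HT
open Pool.Agent.Q99.HU
open Pool.Agent.Q208.HT
open Pool.Agent.Q208.KN (bc_an)

theorem bq_symm {N n y : ℕ} (hn : n < N) (h : y ≤ n) : bq N n y = bq N n (n - y : ℕ) := by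
  rw [bq_val hn h, bq_val hn (by omega), show n - (n - y) = y by omega, mul_comm]

theorem pt_six (x : Fin 6 → ℝ) : pt x =
    (LL (n2 x) - LL (n2 x - x 0) - LL (x 0)) + (LL (n1 x) - LL (n1 x - x 1) - LL (x 1)) +
    (LL (n1 x) - LL (n1 x - x 2) - LL (x 2)) + (LL (n1 x) - LL (n1 x - x 3) - LL (x 3)) +
    (LL (n2 x) - LL (n2 x - x 4) - LL (x 4)) + (LL (n2 x) - LL (n2 x - x 5) - LL (x 5)) := by
  have d0 : dn x 0 = n2 x := if_pos (by decide)
  have d1 : dn x 1 = n1 x := if_neg (by decide)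
  have d2 : dn x 2 = n1 x := if_neg (by decide)
  have d3 : dn x 3 = n1 x := if_neg (by decide)
  have d4 : dn x 4 = n2 x := if_pos (by decide)
  have d5 : dn x 5 = n2 x := if_pos (by decide)
  unfold pt
  rw [Fin.sum_univ_six, d0, d1, d2, d3, d4, d5]

/-- exchange of `1`, `2` and of `4`, `5` -/
def sw (x : Fin 6 → ℝ) : Fin 6 → ℝ := ![x 0, x 2, x 1, x 3, x 5, x 4]

theorem sw0 (x : Fin 6 → ℝ) : sw x 0 = x 0 := rfl
theorem sw1 (x : Fin 6 → ℝ) : sw x 1 = x 2 := rfl
theorem sw2 (x : Fin 6 → ℝ) : sw x 2 = x 1 := rfl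
theorem sw3 (x : Fin 6 → ℝ) : sw x 3 = x 3 := rfl
theorem sw4 (x : Fin 6 → ℝ) : sw x 4 = x 5 := rfl
theorem sw5 (x : Fin 6 → ℝ) : sw x 5 = x 4 := rfl

theorem n1_sw (x : Fin 6 → ℝ) : n1 (sw x) = n1 x := by
  unfold n1
  rw [sw0, sw1, sw2]
  ring

theorem n2_sw (x : Fin 6 → ℝ) : n2 (sw x) = n2 x := by
  unfold n2
  rw [sw3, sw4, sw5]
  ring

theorem pt_sw (x : Fin 6 → ℝ) : pt (sw x) = pt x := by
  rw [pt_six, pt_six, n1_sw, n2_sw, sw0, sw1, sw2, sw3, sw4, sw5]
  ring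

theorem wall (hCC : S_CC) {N A b C k m : ℕ} (a : Fin 6 → ℕ) (hkm : k + m + 1 = N) (hN : 2 ≤ N)
    (h1 : a 0 + a 1 + a 2 = k) (h2 : a 3 + a 4 + a 5 = m) (h0 : a 0 = A) (h3 : a 3 = C)
    (hb : a 1 + a 4 ≤ b) (hb' : b ≤ a 2 + a 5) (hA : A ≤ m) (hC : C ≤ k) :
    ∃ x : Fin 6 → ℝ, Crn N A b C x ∧ ((N : ℝ) - 1) * n1 x = k ∧
      pt (fun i => (a i : ℝ) / (N - 1)) ≤ pt x := by
  obtain ⟨M, hM⟩ : ∃ M : ℝ, M = (N : ℝ) - 1 := ⟨_, rfl⟩
  have hkmR : (k : ℝ) + m + 1 = N := by exact_mod_cast hkm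
  have hN2 : (2 : ℝ) ≤ N := by exact_mod_cast hN
  have hM0 : 0 < M := by rw [hM]; linarith
  have hMk : M = k + m := by rw [hM]; linarith
  rw [← hM]
  obtain ⟨p, hp⟩ : ∃ p : Fin 6 → ℝ, p = fun i => (a i : ℝ) / M := ⟨_, rfl⟩
  have hpi : ∀ i, p i = (a i : ℝ) / M := fun i => by rw [hp]
  have hpM : ∀ i, M * p i = a i := fun i => by rw [hpi]; field_simp
  have h1R : (a 0 : ℝ) + a 1 + a 2 = k := by exact_mod_cast h1
  have h2R : (a 3 : ℝ) + a 4 + a 5 = m := by exact_mod_cast h2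
  have n1p : n1 p = k / M := by
    unfold n1
    rw [hpi, hpi, hpi, ← h1R]
    ring
  have n2p : n2 p = m / M := by
    unfold n2
    rw [hpi, hpi, hpi, ← h2R]
    ring
  have hsum : n1 p + n2 p = 1 := by
    rw [n1p, n2p, ← add_div, ← hMk, div_self hM0.ne']
  have hnn : ∀ i, 0 ≤ p i := fun i => by rw [hpi]; positivity
  have hnn' : ∀ i, 0 ≤ sw p i := by
    intro i
    fin_cases i
    · exact hnn 0
    · exact hnn 2
    · exact hnn 1
    · exact hnn 3
    · exact hnn 5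
    · exact hnn 4
  have hAm : p 0 ≤ n2 p := by
    rw [hpi, n2p, h0]
    exact div_le_div_of_nonneg_right (by exact_mod_cast hA) hM0.le
  have hCk : p 3 ≤ n1 p := by
    rw [hpi, n1p, h3]
    exact div_le_div_of_nonneg_right (by exact_mod_cast hC) hM0.le
  have hbR : (a 1 : ℝ) + a 4 ≤ b := by exact_mod_cast hb
  have hbR' : (b : ℝ) ≤ a 2 + a 5 := by exact_mod_cast hb'
  obtain ⟨l, hl⟩ : ∃ l : ℝ, l = ((b : ℝ) - (a 1 + a 4)) / ((a 2 + a 5) - (a 1 + a 4)) := ⟨_, rfl⟩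
  have hl0 : 0 ≤ l := by
    rw [hl]
    exact div_nonneg (by linarith) (by linarith)
  have hl1 : l ≤ 1 := by
    rw [hl]
    exact div_le_one_of_le₀ (by linarith) (by linarith)
  have hlb : (1 - l) * ((a 1 : ℝ) + a 4) + l * (a 2 + a 5) = b := by
    rcases (hbR.trans hbR').eq_or_lt with h | h
    · have : (b : ℝ) = a 1 + a 4 := by linarith
      rw [← h, this]
      ring
    · have h4 : (0 : ℝ) < (a 2 + a 5) - (a 1 + a 4) := by linarith
      have h5 : l * ((a 2 + a 5) - (a 1 + a 4)) = (b : ℝ) - (a 1 + a 4) := by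
        rw [hl]
        exact div_mul_cancel₀ _ h4.ne'
      linear_combination h5
  have hcc := hCC p (sw p) hnn hnn' hsum (n1_sw p) (n2_sw p) hAm hCk (by rw [sw0]; exact hAm)
    (by rw [sw3]; exact hCk) l hl0 hl1
  rw [pt_sw] at hcc
  obtain ⟨x, hx⟩ : ∃ x : Fin 6 → ℝ, x = fun i => (1 - l) * p i + l * sw p i := ⟨_, rfl⟩
  have hxi : ∀ i, x i = (1 - l) * p i + l * sw p i := fun i => by rw [hx]
  have n1x : n1 x = n1 p := by
    have e : n1 x = (1 - l) * n1 p + l * n1 (sw p) := by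
      unfold n1
      rw [hxi, hxi, hxi]
      ring
    rw [e, n1_sw]
    ring
  have n2x : n2 x = n2 p := by
    have e : n2 x = (1 - l) * n2 p + l * n2 (sw p) := by
      unfold n2
      rw [hxi, hxi, hxi]
      ring
    rw [e, n2_sw]
    ring
  refine ⟨x, ⟨?_, ?_, ?_, ?_, ?_⟩, ?_, ?_⟩
  · intro i
    rw [hxi]
    exact add_nonneg (mul_nonneg (by linarith) (hnn i)) (mul_nonneg hl0 (hnn' i))
  · rw [n1x, n2x, hsum]
  · rw [← hM, hxi, sw0, ← h0]
    linear_combination hpM 0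
  · rw [← hM, hxi, hxi, sw1, sw4]
    linear_combination (1 - l) * hpM 1 + (1 - l) * hpM 4 + l * hpM 2 + l * hpM 5 + hlb
  · rw [← hM, hxi, sw3, ← h3]
    linear_combination hpM 3
  · rw [n1x, n1p]
    field_simp
  · rw [← hx] at hcc
    rw [← hp]
    linarith

theorem task_TWS : S_TWS := by
  intro _ hLBD hPTB hCC
  obtain ⟨C0, p0, hPTB⟩ := hPTB hLBD
  refine ⟨25 * |C0|, p0 + 2, fun N A b C j k hN2 hs hbg hj hk hAk hAk2 hCk hCk2 => ?_⟩
  obtain ⟨m, hm⟩ : ∃ m, m = N - 1 - k := ⟨_, rfl⟩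
  have hkm : k + m + 1 = N := by omega
  have hmN : m < N := by omega
  have hN : 0 < N := by omega
  have hN0 : (0 : ℝ) < N := by exact_mod_cast hN
  have hN1 : (1 : ℝ) ≤ N := by exact_mod_cast hN
  have hzl := zl_neg hkm
  -- the final estimate
  have fin : ∀ (a : Fin 6 → ℕ) {V : ℝ}, a 0 + a 1 + a 2 = k → a 3 + a 4 + a 5 = m → a 0 = A →
      a 3 = C → a 1 + a 4 ≤ b → b ≤ a 2 + a 5 →
      V ≤ 25 * (N : ℝ) ^ 2 * (bq N m (a 0) * bq N k (a 3) * (bq N k (a 1) * bq N m (a 4)) *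
        (bq N k (a 2) * bq N m (a 5))) →
      ∃ x : Fin 6 → ℝ, Crn N A b C x ∧ ((N : ℝ) - 1) * n1 x = k ∧
        V ≤ 25 * |C0| * N ^ (p0 + 2) * Real.exp (N * pt x) := by
    intro a V h1 h2 h0 h3 h4 h5 hV
    obtain ⟨x, hx1, hx2, hx3⟩ := wall hCC a hkm hN2 h1 h2 h0 h3 h4 h5 (by omega) (by omega)
    refine ⟨x, hx1, hx2, ?_⟩
    have h6 := (hPTB N k m a hN2 hkm h1 h2).1 (by omega) (by omega)
    have h7 : C0 * N ^ p0 * Real.exp (N * pt (fun i => (a i : ℝ) / (N - 1))) ≤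
        |C0| * N ^ p0 * Real.exp (N * pt x) := by
      apply mul_le_mul
      · exact mul_le_mul_of_nonneg_right (le_abs_self _) (by positivity)
      · exact Real.exp_le_exp.2 (mul_le_mul_of_nonneg_left hx3 hN0.le)
      · exact (Real.exp_pos _).le
      · positivity
    calc V ≤ 25 * (N : ℝ) ^ 2 * (bq N m (a 0) * bq N k (a 3) * (bq N k (a 1) * bq N m (a 4)) *
        (bq N k (a 2) * bq N m (a 5))) := hV
      _ ≤ 25 * (N : ℝ) ^ 2 * (|C0| * N ^ p0 * Real.exp (N * pt x)) :=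
          mul_le_mul_of_nonneg_left (h6.trans h7) (by positivity)
      _ = _ := by ring
  have P2 : ∀ x : ℕ, x ≤ k → ‖deriv (fun z : ℂ => bc N ((N - 1 + z) / 2) x) (zl N k)‖ ≤
      4 * N ^ 2 * bq N k x := fun x hx => by
    rw [der_p]
    exact d2 hk hx
  have M2 : ∀ x : ℕ, x ≤ m → ‖deriv (fun z : ℂ => bc N ((N - 1 - z) / 2) x) (zl N k)‖ ≤
      4 * N ^ 2 * bq N m x := fun x hx => by
    rw [hzl, der_m]
    exact d2 hmN hx
  have P3 : ∀ x : ℕ, k < x → x < N → ‖deriv (fun z : ℂ => bc N ((N - 1 + z) / 2) x) (zl N k)‖ *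
      bq N m (x - k : ℕ) ≤ 1 := fun x hx hxN => by
    have h1 := d3 (N := N) hx hxN
    rw [← hm] at h1
    rw [der_p]
    exact h1
  have M3 : ∀ x : ℕ, m < x → x < N → ‖deriv (fun z : ℂ => bc N ((N - 1 - z) / 2) x) (zl N k)‖ *
      bq N k (x - m : ℕ) ≤ 1 := fun x hx hxN => by
    have h1 := d3 (N := N) hx hxN
    rw [show N - 1 - m = k by omega] at h1
    rw [hzl, der_m]
    exact h1
  -- the derivative
  have g1 : Differentiable ℂ (fun z : ℂ => ((N : ℂ) - 1 + z) / 2) := by fun_prop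
  have g2 : Differentiable ℂ (fun z : ℂ => ((N : ℂ) - 1 - z) / 2) := by fun_prop
  have hder := der6 (z := zl N k) (bc_an N A g2).differentiableAt (bc_an N C g1).differentiableAt
    (bc_an N j g1).differentiableAt (bc_an N (b - j) g2).differentiableAt
    (bc_an N (A + j) g1).differentiableAt (bc_an N (C + (b - j)) g2).differentiableAt
  have hval : ‖Tm N (zl N k) A b C j‖ = bq N m A * bq N k C * (bq N k j * bq N m (b - j : ℕ)) *
      (bq N k (A + j : ℕ) * bq N m (C + (b - j) : ℕ)) := by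
    unfold Tm
    rw [zl_p, zl_m' hkm]
    simp only [norm_mul]
    rw [bc_norm hmN (by omega : A < N), bc_norm hk (by omega : C < N), bc_norm hk (by omega : j < N),
      bc_norm hmN (by omega : b - j < N), bc_norm hk (by omega : A + j < N),
      bc_norm hmN (by omega : C + (b - j) < N)]
  have hTm : (fun z => Tm N z A b C j) = fun z : ℂ => bc N ((N - 1 - z) / 2) A *
      bc N ((N - 1 + z) / 2) C * (bc N ((N - 1 + z) / 2) j * bc N ((N - 1 - z) / 2) (b - j)) *
      (bc N ((N - 1 + z) / 2) (A + j) * bc N ((N - 1 - z) / 2) (C + (b - j))) := rfl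
  rw [← hTm, zl_p, zl_m' hkm, bc_norm hmN (by omega : A < N), bc_norm hk (by omega : C < N),
    bc_norm hk (by omega : j < N), bc_norm hmN (by omega : b - j < N),
    bc_norm hk (by omega : A + j < N), bc_norm hmN (by omega : C + (b - j) < N)] at hder
  obtain ⟨a1, ha1⟩ : ∃ a, a = bq N m A := ⟨_, rfl⟩
  obtain ⟨a2, ha2⟩ : ∃ a, a = bq N k C := ⟨_, rfl⟩
  obtain ⟨a3, ha3⟩ : ∃ a, a = bq N k j := ⟨_, rfl⟩
  obtain ⟨a4, ha4⟩ : ∃ a, a = bq N m (b - j : ℕ) := ⟨_, rfl⟩
  obtain ⟨a5, ha5⟩ : ∃ a, a = bq N k (A + j : ℕ) := ⟨_, rfl⟩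
  obtain ⟨a6, ha6⟩ : ∃ a, a = bq N m (C + (b - j) : ℕ) := ⟨_, rfl⟩
  have q1 : 0 ≤ a1 := by rw [ha1]; exact bq_nonneg' hmN
  have q2 : 0 ≤ a2 := by rw [ha2]; exact bq_nonneg' hk
  have q3 : 0 ≤ a3 := by rw [ha3]; exact bq_nonneg' hk
  have q4 : 0 ≤ a4 := by rw [ha4]; exact bq_nonneg' hmN
  have q5 : 0 ≤ a5 := by rw [ha5]; exact bq_nonneg' hk
  have q6 : 0 ≤ a6 := by rw [ha6]; exact bq_nonneg' hmN
  rw [← ha1, ← ha2, ← ha3, ← ha4, ← ha5, ← ha6] at hval hder
  obtain ⟨e1, he1⟩ : ∃ e, e = ‖deriv (fun z : ℂ => bc N ((N - 1 - z) / 2) A) (zl N k)‖ := ⟨_, rfl⟩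
  obtain ⟨e2, he2⟩ : ∃ e, e = ‖deriv (fun z : ℂ => bc N ((N - 1 + z) / 2) C) (zl N k)‖ := ⟨_, rfl⟩
  obtain ⟨e3, he3⟩ : ∃ e, e = ‖deriv (fun z : ℂ => bc N ((N - 1 + z) / 2) j) (zl N k)‖ := ⟨_, rfl⟩
  obtain ⟨e4, he4⟩ : ∃ e, e = ‖deriv (fun z : ℂ => bc N ((N - 1 - z) / 2) (b - j)) (zl N k)‖ :=
    ⟨_, rfl⟩
  obtain ⟨e5, he5⟩ : ∃ e, e = ‖deriv (fun z : ℂ => bc N ((N - 1 + z) / 2) (A + j)) (zl N k)‖ :=
    ⟨_, rfl⟩
  obtain ⟨e6, he6⟩ : ∃ e, e = ‖deriv (fun z : ℂ => bc N ((N - 1 - z) / 2) (C + (b - j)))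
    (zl N k)‖ := ⟨_, rfl⟩
  rw [← he1, ← he2, ← he3, ← he4, ← he5, ← he6] at hder
  have z5 : k < A + j → a5 = 0 := fun h => by rw [ha5]; exact bq_zero h
  have z6 : m < C + (b - j) → a6 = 0 := fun h => by rw [ha6]; exact bq_zero h
  rcases lt_or_ge k (A + j) with c5 | c5
  · rcases lt_or_ge m (C + (b - j)) with c6 | c6
    · -- both vanish
      left
      rw [z5 c5, z6 c6] at hval hder
      simp only [mul_zero, zero_mul, add_zero] at hval hder
      rw [hval, zero_add]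
      exact le_antisymm hder (norm_nonneg _)
    rcases lt_or_ge k j with c3 | c3
    · left
      have z3 : a3 = 0 := by rw [ha3]; exact bq_zero c3
      rw [z5 c5, z3] at hval hder
      simp only [mul_zero, zero_mul, add_zero] at hval hder
      rw [hval, zero_add]
      exact le_antisymm hder (norm_nonneg _)
    -- the first wall
    right
    obtain ⟨v, hv⟩ : ∃ v, v = A + j - k := ⟨_, rfl⟩
    have hv1 : 1 ≤ v := by omega
    have h5 := P3 (A + j) c5 (by omega)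
    rw [← hv, ← he5] at h5
    have h3 : a3 ≤ bq N k (j - v : ℕ) * bq N m v := by
      have h6 := key2 (N := N) (n1 := k) (n2 := m) (u := j - v) (v := v) (w := A - v) hkm (by omega)
        (by omega)
      rw [show j - v + v = j by omega] at h6
      rw [ha3]
      exact h6
    rw [z5 c5] at hval hder
    simp only [mul_zero, zero_mul, add_zero, zero_add] at hval hder
    rw [hval, zero_add]
    have hb1 : 0 ≤ bq N k (j - v : ℕ) := bq_nonneg' hk
    have he5' : 0 ≤ e5 := by rw [he5]; exact norm_nonneg _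
    have h7 : a3 * e5 ≤ bq N k (j - v : ℕ) := by
      calc a3 * e5 ≤ bq N k (j - v : ℕ) * bq N m v * e5 := mul_le_mul_of_nonneg_right h3 he5'
        _ = bq N k (j - v : ℕ) * (e5 * bq N m v) := by ring
        _ ≤ bq N k (j - v : ℕ) * 1 := mul_le_mul_of_nonneg_left h5 hb1
        _ = _ := mul_one _
    have h8 : a1 * a2 * a3 * a4 * e5 * a6 ≤ a1 * a2 * (bq N k (j - v : ℕ) * a4) * a6 := by
      calc a1 * a2 * a3 * a4 * e5 * a6 = a1 * a2 * ((a3 * e5) * a4) * a6 := by ring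
        _ ≤ _ := by gcongr
    have h9 : a1 * a2 * (bq N k (j - v : ℕ) * a4) * a6 ≤
        25 * (N : ℝ) ^ 2 * (a1 * a2 * (bq N k (j - v : ℕ) * a4) * a6) := by
      exact le_mul_of_one_le_left (by positivity) (one_le25 hN1)
    refine fin ![A, j - v, 0, C, b - j, m - C - (b - j)] ?_ ?_ rfl rfl ?_ ?_
      (hder.trans (h8.trans (h9.trans (le_of_eq ?_))))
    · show A + (j - v) + 0 = k
      omega
    · show C + (b - j) + (m - C - (b - j)) = m
      omega
    · show (j - v) + (b - j) ≤ b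
      omega
    · show b ≤ 0 + (m - C - (b - j))
      omega
    · show 25 * (N : ℝ) ^ 2 * (a1 * a2 * (bq N k (j - v : ℕ) * a4) * a6) =
        25 * (N : ℝ) ^ 2 * (bq N m A * bq N k C * (bq N k (j - v : ℕ) * bq N m (b - j : ℕ)) *
          (bq N k (0 : ℕ) * bq N m (m - C - (b - j) : ℕ)))
      have r1 : bq N k (0 : ℕ) = 1 := by
        have := bq_symm (N := N) (n := k) (y := k) hk le_rfl
        rw [bq_self hk, Nat.sub_self] at this
        exact this.symm
      have r2 : bq N m (m - C - (b - j) : ℕ) = a6 := by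
        rw [ha6, bq_symm hmN c6]
        congr 2
        omega
      rw [r1, r2, ← ha1, ← ha2, ← ha4, one_mul]
  · rcases lt_or_ge m (C + (b - j)) with c6 | c6
    · rcases lt_or_ge m (b - j) with c4 | c4
      · left
        have z4 : a4 = 0 := by rw [ha4]; exact bq_zero c4
        rw [z6 c6, z4] at hval hder
        simp only [mul_zero, zero_mul, add_zero] at hval hder
        rw [hval, zero_add]
        exact le_antisymm hder (norm_nonneg _)
      -- the second wall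
      right
      obtain ⟨v, hv⟩ : ∃ v, v = C + (b - j) - m := ⟨_, rfl⟩
      have hv1 : 1 ≤ v := by omega
      have h5 := M3 (C + (b - j)) c6 (by omega)
      rw [← hv, ← he6] at h5
      have h3 : a4 ≤ bq N m (b - j - v : ℕ) * bq N k v := by
        have h6 := key2 (N := N) (n1 := m) (n2 := k) (u := b - j - v) (v := v) (w := C - v)
          (by omega) (by omega) (by omega)
        rw [show b - j - v + v = b - j by omega] at h6
        rw [ha4]
        exact h6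
      rw [z6 c6] at hval hder
      simp only [mul_zero, zero_add] at hval hder
      rw [hval, zero_add]
      have hb1 : 0 ≤ bq N m (b - j - v : ℕ) := bq_nonneg' hmN
      have he6' : 0 ≤ e6 := by rw [he6]; exact norm_nonneg _
      have h7 : a4 * e6 ≤ bq N m (b - j - v : ℕ) := by
        calc a4 * e6 ≤ bq N m (b - j - v : ℕ) * bq N k v * e6 := mul_le_mul_of_nonneg_right h3 he6'
          _ = bq N m (b - j - v : ℕ) * (e6 * bq N k v) := by ring
          _ ≤ bq N m (b - j - v : ℕ) * 1 := mul_le_mul_of_nonneg_left h5 hb1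
          _ = _ := mul_one _
      have h8 : a1 * a2 * a3 * a4 * a5 * e6 ≤ a1 * a2 * (a3 * bq N m (b - j - v : ℕ)) * a5 := by
        calc a1 * a2 * a3 * a4 * a5 * e6 = a1 * a2 * (a3 * (a4 * e6)) * a5 := by ring
          _ ≤ _ := by gcongr
      have h9 : a1 * a2 * (a3 * bq N m (b - j - v : ℕ)) * a5 ≤
          25 * (N : ℝ) ^ 2 * (a1 * a2 * (a3 * bq N m (b - j - v : ℕ)) * a5) := by
        exact le_mul_of_one_le_left (by positivity) (one_le25 hN1)
      refine fin ![A, j, k - A - j, C, b - j - v, 0] ?_ ?_ rfl rfl ?_ ?_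
        (hder.trans (h8.trans (h9.trans (le_of_eq ?_))))
      · show A + j + (k - A - j) = k
        omega
      · show C + (b - j - v) + 0 = m
        omega
      · show j + (b - j - v) ≤ b
        omega
      · show b ≤ (k - A - j) + 0
        omega
      · show 25 * (N : ℝ) ^ 2 * (a1 * a2 * (a3 * bq N m (b - j - v : ℕ)) * a5) =
          25 * (N : ℝ) ^ 2 * (bq N m A * bq N k C * (bq N k j * bq N m (b - j - v : ℕ)) *
            (bq N k (k - A - j : ℕ) * bq N m (0 : ℕ)))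
        have r1 : bq N m (0 : ℕ) = 1 := by
          have := bq_symm (N := N) (n := m) (y := m) hmN le_rfl
          rw [bq_self hmN, Nat.sub_self] at this
          exact this.symm
        have r2 : bq N k (k - A - j : ℕ) = a5 := by
          rw [ha5, bq_symm hk c5]
          congr 2
          omega
        rw [r1, r2, ← ha1, ← ha2, ← ha3, mul_one]
    · -- no bracket vanishes
      right
      have f1 : e1 ≤ 4 * N ^ 2 * a1 := by rw [he1, ha1]; exact M2 A (by omega)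
      have f2 : e2 ≤ 4 * N ^ 2 * a2 := by rw [he2, ha2]; exact P2 C (by omega)
      have f3 : e3 ≤ 4 * N ^ 2 * a3 := by rw [he3, ha3]; exact P2 j (by omega)
      have f4 : e4 ≤ 4 * N ^ 2 * a4 := by rw [he4, ha4]; exact M2 (b - j) (by omega)
      have f5 : e5 ≤ 4 * N ^ 2 * a5 := by rw [he5, ha5]; exact P2 (A + j) c5
      have f6 : e6 ≤ 4 * N ^ 2 * a6 := by rw [he6, ha6]; exact M2 (C + (b - j)) c6
      have h1 := bound6 q1 q2 q3 q4 q5 q6 f1 f2 f3 f4 f5 f6
      have hP : 0 ≤ a1 * a2 * (a3 * a4) * (a5 * a6) := by positivity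
      have h2 : a1 * a2 * (a3 * a4) * (a5 * a6) ≤ N ^ 2 * (a1 * a2 * (a3 * a4) * (a5 * a6)) := by
        exact le_mul_of_one_le_left hP (one_le_pow₀ hN1)
      refine fin ![A, j, k - A - j, C, b - j, m - C - (b - j)] ?_ ?_ rfl rfl ?_ ?_ ?_
      · show A + j + (k - A - j) = k
        omega
      · show C + (b - j) + (m - C - (b - j)) = m
        omega
      · show j + (b - j) ≤ b
        omega
      · show b ≤ (k - A - j) + (m - C - (b - j))
        omega
      · show _ ≤ 25 * (N : ℝ) ^ 2 * (bq N m A * bq N k C * (bq N k j * bq N m (b - j : ℕ)) *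
            (bq N k (k - A - j : ℕ) * bq N m (m - C - (b - j) : ℕ)))
        have r1 : bq N m (m - C - (b - j) : ℕ) = a6 := by
          rw [ha6, bq_symm hmN c6]
          congr 2
          omega
        have r2 : bq N k (k - A - j : ℕ) = a5 := by
          rw [ha5, bq_symm hk c5]
          congr 2
          omega
        rw [r1, r2, ← ha1, ← ha2, ← ha3, ← ha4, hval]
        linarith only [hder, h1, h2]

end Pool.Agent.Q79.HU
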